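import Mathlib

set_option autoImplicit false

namespace Pool.Agent.Results.MP_547692_lc.Iff

open Set MeasureTheory Cardinal

/-- naively Haar null (additive group with its Borel sets; `μ` of a set is its outer measure) -/
def NHN {H : Type} [AddGroup H] [TopologicalSpace H] [MeasurableSpace H] [BorelSpace H]
    (X : Set H) : Prop :=
  ∃ μ : Measure H, μ Set.univ = 1 ∧ ∀ g h : H, μ ((fun x => g + x + h) '' X) = 0

/-- the least size of a set of reals that is not Lebesgue null -/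
noncomputable def nonN : Cardinal := sInf {κ | ∃ A : Set ℝ, #A = κ ∧ volume A ≠ 0}

lemma small (X : Set (ℝ × ℝ)) (h : #X < 𝔠) : NHN X := by
  obtain ⟨θ, hθ⟩ : ∃ θ : ℝ, θ ∉ range fun p : X × X => (p.1.1.2 - p.2.1.2) / (p.1.1.1 - p.2.1.1) := by
    by_contra hn
    push Not at hn
    have := (mk_le_mk_of_subset (show Set.univ ⊆ _ from fun x _ => hn x)).trans mk_range_le
    rw [mk_univ, mk_real] at this
    exact (mul_lt_of_lt aleph0_le_continuum h h).not_ge (by simpa using this)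
  have e : MeasurableEmbedding fun t : ℝ => (t, θ * t) :=
    Measurable.measurableEmbedding (by fun_prop) fun s t h => (Prod.ext_iff.1 h).1
  refine ⟨(volume.restrict (Icc (0 : ℝ) 1)).map fun t => (t, θ * t), by rw [e.map_apply]; simp,
    fun g k => ?_⟩
  rw [e.map_apply]
  refine Subsingleton.measure_zero ?_ _
  rintro s ⟨p, hp, a⟩ t ⟨q, hq, b⟩
  simp only [Prod.ext_iff, Prod.fst_add, Prod.snd_add] at a b
  by_contra hn
  refine hθ ⟨(⟨p, hp⟩, ⟨q, hq⟩), ?_⟩
  have : p.1 - q.1 = s - t := by linarith [a.1, b.1]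
  simp only [this]
  rw [div_eq_iff (sub_ne_zero.2 hn)]
  linarith [a.2, b.2]

theorem result : (∀ X : Set (ℝ × ℝ), #X < 𝔠 → NHN X) ∧
    ((∃ S : Set ℝ, #S = nonN ∧ ¬ NHN (S ×ˢ S)) ↔ nonN = 𝔠) := by
  refine ⟨small, fun ⟨S, h1, h2⟩ => le_antisymm (h1 ▸ (mk_set_le S).trans mk_real.le)
    (not_lt.1 fun h => h2 (small _ ?_)), fun h => ⟨Set.univ, by rw [h, mk_univ, mk_real], ?_⟩⟩
  · rw [mk_congr (Equiv.Set.prod S S), mk_prod, lift_id, h1]
    exact mul_lt_of_lt aleph0_le_continuum h h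
  · rintro ⟨μ, a, b⟩
    simpa [a] using b 0 0

end Pool.Agent.Results.MP_547692_lc.Iff
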